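import Mathlib
import Pool.Agent.Hhelper35.Rainbow.Final

/-!
# Every proper edge colouring of the complete graph on ten vertices has a rainbow Hamiltonian path
-/

set_option autoImplicit false

namespace Pool.Agent.Results.MP_50639e_co.TenVertices

/-- `c` is a proper edge colouring of the complete graph on `V`: two different edges `uv`, `uw`
with a common vertex have different colours (the values of `c` on the diagonal play no role) -/
def IsProper {V α : Type} (c : Sym2 V → α) : Prop :=
  ∀ u v w : V, u ≠ v → u ≠ w → v ≠ w → c s(u, v) ≠ c s(u, w)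

/-- the edges of the walk have pairwise different colours -/
def IsRainbow {V α : Type} {G : SimpleGraph V} {u v : V} (c : Sym2 V → α) (p : G.Walk u v) :
    Prop :=
  (p.edges.map c).Nodup

/-- the walk through the first values of an injective sequence -/
theorem exists_walk {V : Type} (p : ℕ → V) (n : ℕ)
    (hp : ∀ i j : ℕ, i ≤ n → j ≤ n → p i = p j → i = j) (k : ℕ) (hk : k ≤ n) :
    ∃ w : (⊤ : SimpleGraph V).Walk (p 0) (p k),
      w.support = (List.range (k + 1)).map p ∧
      w.edges = (List.range k).map (fun i => s(p i, p (i + 1))) := by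
  induction k with
  | zero => exact ⟨SimpleGraph.Walk.nil, by simp, by simp⟩
  | succ k ih =>
    obtain ⟨w, h1, h2⟩ := ih (by omega)
    have hadj : (⊤ : SimpleGraph V).Adj (p k) (p (k + 1)) := by
      rw [SimpleGraph.top_adj]
      intro h
      have := hp k (k + 1) (by omega) hk h
      omega
    refine ⟨w.concat hadj, ?_, ?_⟩
    · rw [SimpleGraph.Walk.support_concat, h1, List.range_succ (n := k + 1), List.map_append]
      simp
    · rw [SimpleGraph.Walk.edges_concat, h2, List.range_succ, List.map_append]
      simp

/-- **Ten vertices.**  Every proper edge colouring of `K_10`, with any set of colours, contains a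
rainbow Hamiltonian path (a path with nine edges). -/
theorem result (α : Type) (c : Sym2 (Fin 10) → α) (hc : IsProper c) :
    ∃ (u v : Fin 10) (p : (⊤ : SimpleGraph (Fin 10)).Walk u v), p.IsHamiltonian ∧
      p.length = 9 ∧ IsRainbow c p := by
  by_contra hno
  obtain ⟨e, he⟩ := Countable.exists_injective_nat (Set.range c)
  have hinj : ∀ a b : ℕ, a < 10 → b < 10 → Fin.ofNat 10 a = Fin.ofNat 10 b → a = b := by
    intro a b ha hb h
    have := congrArg Fin.val h
    simp only [Fin.val_ofNat] at this
    rwa [Nat.mod_eq_of_lt ha, Nat.mod_eq_of_lt hb] at this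
  set C : ℕ → ℕ → ℕ := fun a b => e ⟨c s(Fin.ofNat 10 a, Fin.ofNat 10 b), ⟨_, rfl⟩⟩ with hC
  have hCe : ∀ a b a' b' : ℕ, C a b = C a' b' →
      c s(Fin.ofNat 10 a, Fin.ofNat 10 b) = c s(Fin.ofNat 10 a', Fin.ofNat 10 b') := by
    intro a b a' b' h
    exact congrArg Subtype.val (he h)
  have hG : Pool.Agent.Hhelper35.Rainbow.Good C := by
    constructor
    · intro a b _ _
      simp only [hC]
      congr 2
      rw [Sym2.eq_swap]
    · intro a b d ha hb hd hab had hbd h
      exact hc _ _ _ (fun e => hab (hinj a b ha hb e)) (fun e => had (hinj a d ha hd e))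
        (fun e => hbd (hinj b d hb hd e)) (hCe _ _ _ _ h)
  apply Pool.Agent.Hhelper35.Rainbow.main hG
  intro f hf
  by_contra hcon
  push Not at hcon
  apply hno
  set p : ℕ → Fin 10 := fun i => Fin.ofNat 10 (f i) with hp
  have hpi : ∀ i j : ℕ, i ≤ 9 → j ≤ 9 → p i = p j → i = j := by
    intro i j hi hj h
    exact hf.2 i (by omega) j (by omega)
      (hinj _ _ (hf.1 i (by omega)) (hf.1 j (by omega)) h)
  obtain ⟨w, h1, h2⟩ := exists_walk p 9 hpi 9 le_rfl
  have hnd : w.support.Nodup := by
    rw [h1]
    apply List.Nodup.map_on _ List.nodup_range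
    intro x hx y hy h
    rw [List.mem_range] at hx hy
    exact hpi x y (by omega) (by omega) h
  have hsurj : ∀ v : Fin 10, v ∈ w.support := by
    intro v
    have hbij : Function.Bijective (fun i : Fin 10 => p i) := by
      rw [Finite.injective_iff_bijective.symm]
      intro i j h
      exact Fin.ext (hpi i j (by omega) (by omega) h)
    obtain ⟨i, hi⟩ := hbij.2 v
    rw [h1, List.mem_map]
    exact ⟨i, List.mem_range.2 (by omega), hi⟩
  refine ⟨_, _, w, ?_, ?_, ?_⟩
  · intro v
    exact List.count_eq_one_of_mem hnd (hsurj v)
  · rw [← SimpleGraph.Walk.length_edges, h2]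
    simp
  · unfold IsRainbow
    rw [h2, List.map_map]
    apply List.Nodup.map_on _ List.nodup_range
    intro i hi j hj h
    rw [List.mem_range] at hi hj
    rcases lt_trichotomy i j with hij | hij | hij
    · exfalso
      apply hcon i j hij (by omega)
      simp only [hC]
      congr 2
    · exact hij
    · exfalso
      apply hcon j i hij (by omega)
      simp only [hC]
      congr 2
      exact h.symm

end Pool.Agent.Results.MP_50639e_co.TenVertices
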